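import Mathlib
import Pool.Agent.Helper43.Gx.Goals2
import Pool.Agent.Helper64.Gx.X3

/-!
Packet Y1: second differences of the old part, short version of the hypothesis.
-/

set_option autoImplicit false

namespace Pool.Agent.Helper43.Gx.PkY1

open Finset Pool.Agent.Lead.Sh
open Pool.Agent.Helper43.Gm (st mv nn SS Run Pri)
open Pool.Agent.Helper43.Gm.PkE (KK ek ex)
open Pool.Agent.Helper43.Gx.PkX3

theorem goalY1 (h3a : GoalX3a) : GoalY1 := by
  intro M μ J P C ν κ x hR hμ hμM hν hJ hP hC hstep
  have hJ1 : 1 ≤ J := by omega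
  have hKK : KK κ x J = aa κ x (J - 1) := rfl
  have hPK : P ≤ KK κ x J := by
    refine hP.trans ((kmono hR (show J - M - 1 ≤ J - 1 by omega) (by omega)).trans ?_)
    exact Gm.PkE.KK_ge
  -- the first active row
  have hs : ∀ c, c < KK κ x J → ∃ s0, s0 < J ∧ c < aa κ x s0 ∧ ∀ y < s0, aa κ x y ≤ c := by
    intro c hc
    have hex : ∃ y, c < aa κ x y := ⟨J - 1, by rw [← hKK]; exact hc⟩
    refine ⟨Nat.find hex, ?_, Nat.find_spec hex, fun y hy => ?_⟩
    · exact lt_of_le_of_lt (Nat.find_min' hex (m := J - 1) (by rw [← hKK]; exact hc)) (by omega)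
    · exact not_lt.1 (Nat.find_min hex hy)
  choose! s0 hs1 hs2 hs3 using hs
  obtain ⟨f, hf⟩ : ∃ f : ℕ → ℕ → ℤ, f = fun c t => ((t - (J - 1 - s0 c) : ℕ) : ℤ) +
    ∑ y ∈ (range J).filter (fun y => κ y = c ∧ 0 < x y),
      (if x y + J < t + y + 2 then (1 : ℤ) else 0) := ⟨_, rfl⟩
  -- the formula
  have hnn : ∀ c, P ≤ c → c < KK κ x J → ∀ t, (t < μ ∨ (t = μ ∧ c < κ (J - 1))) →
      (nn (ek κ x J) (ex x J) ν c (J + μ - 1 - t) : ℤ) = f c t := by
    intro c hc1 hc2 t ht
    have h1 := (h3a M J ν κ x hR hJ1 c (s0 c) (hs1 c hc2) (hs2 c hc2) (hs3 c hc2)).1 t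
    rw [hν c hc1] at h1
    rw [h1 ht, hf]
    push_cast
    congr 1
    rw [sum_ite, sum_const_zero, add_zero, sum_const, filter_filter]
    simp only [and_assoc, nsmul_eq_mul, mul_one]
  have hmov : ∀ c, c < KK κ x J → ∀ y < J, κ y = c → 0 < x y → s0 c ≤ y ∧ y + 1 ≤ x y + s0 c :=
    fun c hc => (h3a M J ν κ x hR hJ1 c (s0 c) (hs1 c hc) (hs2 c hc) (hs3 c hc)).2
  have hFF : ∀ t ≤ μ, FF κ x ν μ J t =
      ∑ c ∈ Ico P (KK κ x J), (nn (ek κ x J) (ex x J) ν c (J + μ - 1 - t) : ℤ) := by
    intro t ht
    unfold FF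
    rw [range_eq_Ico, ← sum_Ico_consecutive _ (Nat.zero_le P) hPK]
    rw [sum_eq_zero, zero_add]
    intro c hc
    rw [old_zero hR (by omega) (lt_of_lt_of_le (mem_Ico.1 hc).2 hP) (by omega)]
    simp
  constructor
  swap
  · rw [hFF 0 (by omega)]
    refine sum_eq_zero fun c hc => ?_
    obtain ⟨hc1, hc2⟩ := mem_Ico.1 hc
    rw [hnn c hc1 hc2 0 (Or.inl (by omega)), hf]
    simp only [Nat.zero_sub, Nat.cast_zero, zero_add]
    refine sum_eq_zero fun y hy => ?_
    rw [mem_filter, mem_range] at hy
    rw [if_neg (by omega)]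
  intro w hw2 hwμ
  have hw1 : (2 : ℤ) ≤ w := by exact_mod_cast hw2
  -- the loss at the last moving point
  have hloss : ∀ c ∈ Ico P (KK κ x J), Hop (f c) w -
      (if κ (J - 1) ≤ c then (w : ℤ) ^ 2 * (w - 1) else 0) ≤
      Hop (fun t => (nn (ek κ x J) (ex x J) ν c (J + μ - 1 - t) : ℤ)) w := by
    intro c hc
    obtain ⟨hc1, hc2⟩ := mem_Ico.1 hc
    by_cases hcase : w < μ ∨ c < κ (J - 1)
    · have h1 : Hop (fun t => (nn (ek κ x J) (ex x J) ν c (J + μ - 1 - t) : ℤ)) w =
          Hop (f c) w := Hop_congr fun t ht => hnn c hc1 hc2 t (by omega)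
      rw [h1]
      have h2 : 0 ≤ (w : ℤ) ^ 2 * (w - 1) := by
        have : (0 : ℤ) ≤ w - 1 := by linarith
        positivity
      split_ifs <;> linarith
    · push Not at hcase
      obtain ⟨hwm, hck⟩ := hcase
      have hwe : w = μ := by omega
      subst hwe
      rw [if_pos hck]
      have hxpos : 0 < x (J - 1) := by
        by_contra hx
        unfold KK at hc2
        rw [if_neg hx] at hc2
        omega
      have hce : c = κ (J - 1) := by
        unfold KK at hc2
        rw [if_pos hxpos] at hc2
        omega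
      have h1 : ∀ t < w, (nn (ek κ x J) (ex x J) ν c (J + w - 1 - t) : ℤ) = f c t :=
        fun t ht => hnn c hc1 hc2 t (Or.inl ht)
      have h2 : (1 : ℤ) ≤ (nn (ek κ x J) (ex x J) ν c (J + w - 1 - w) : ℤ) := by
        have e1 : J + w - 1 - w = J - 1 := by omega
        rw [e1]
        unfold nn
        rw [Gm.PkE.ek_lt (by omega), if_neg (by omega), if_pos hce.symm, Gm.PkE.ex_lt (by omega)]
        exact_mod_cast hxpos
      have h3 : f c w ≤ w + 1 := by
        rw [hf]
        simp only
        have h4 : (∑ y ∈ (range J).filter (fun y => κ y = c ∧ 0 < x y),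
            (if x y + J < w + y + 2 then (1 : ℤ) else 0)) =
            (((range J).filter (fun y => κ y = c ∧ 0 < x y)).filter
              (fun y => x y + J < w + y + 2)).card := by
          rw [sum_ite, sum_const_zero, add_zero, sum_const]
          simp
        rw [h4]
        rcases Nat.lt_or_ge (J - 1 - s0 c) w with h5 | h5
        · have h6 : (((range J).filter (fun y => κ y = c ∧ 0 < x y)).filter
              (fun y => x y + J < w + y + 2)).card ≤ J - s0 c := by
            rw [← Nat.card_Ico]
            apply card_le_card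
            intro y hy
            rw [mem_filter, mem_filter, mem_range] at hy
            rw [mem_Ico]
            exact ⟨(hmov c hc2 y hy.1.1 hy.1.2.1 hy.1.2.2).1, hy.1.1⟩
          have := hs1 c hc2
          omega
        · have h6 : (((range J).filter (fun y => κ y = c ∧ 0 < x y)).filter
              (fun y => x y + J < w + y + 2)) = ∅ := by
            rw [filter_eq_empty_iff]
            intro y hy
            rw [mem_filter, mem_range] at hy
            have := (hmov c hc2 y hy.1 hy.2.1 hy.2.2).2
            have := hs1 c hc2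
            omega
          rw [h6, card_empty]
          omega
      unfold Hop
      beta_reduce
      rw [sum_congr rfl (fun t ht => h1 t (mem_range.1 ht)), h1 (w - 1) (by omega)]
      have h4 : 0 ≤ (w : ℤ) * (w - 1) := by
        have : (0 : ℤ) ≤ w - 1 := by linarith
        positivity
      nlinarith
  -- the parts of the formula
  have hparts : ∀ c, Hop (f c) w = (if J - 1 - s0 c < w then
      ((J - 1 - s0 c : ℕ) : ℤ) * ((J - 1 - s0 c : ℕ) + 1) else 0) +
      ∑ y ∈ (range J).filter (fun y => κ y = c ∧ 0 < x y),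
        Hop (fun t => if x y + J < t + y + 2 then (1 : ℤ) else 0) w := by
    intro c
    rw [hf]
    simp only
    rw [Hop_add, Hop_lin, Hop_sum]
  have hHstep : ∀ y < J, 0 < x y → -(if J + 1 ≤ y + w then 2 * ((w : ℤ) - 1) else 0) ≤
      Hop (fun t => if x y + J < t + y + 2 then (1 : ℤ) else 0) w := by
    intro y hy hx
    obtain ⟨t', ht'⟩ : ∃ t', x y + J = t' + y + 2 := ⟨x y + J - y - 2, by omega⟩
    have h1 : Hop (fun t => if x y + J < t + y + 2 then (1 : ℤ) else 0) w =
        Hop (fun t => if t' < t then (1 : ℤ) else 0) w := Hop_congr fun t _ => by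
      by_cases h : t' < t
      · rw [if_pos h, if_pos (by omega)]
      · rw [if_neg h, if_neg (by omega)]
    rw [h1]
    refine le_trans ?_ (Hop_step t' w (by omega))
    by_cases h2 : t' + 2 ≤ w
    · rw [if_pos h2, if_pos (by omega)]
      have : (t' : ℤ) + 2 ≤ w := by exact_mod_cast h2
      linarith
    · rw [if_neg h2]
      split_ifs <;> linarith
  -- the old points
  have hold : (C : ℤ) * ((w - 1) * w * (w + 1)) ≤ 3 * ∑ c ∈ Ico P (KK κ x J),
      (if J - 1 - s0 c < w then
      ((J - 1 - s0 c : ℕ) : ℤ) * ((J - 1 - s0 c : ℕ) + 1) else 0) := by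
    have h1 : ∑ t ∈ range w, (C : ℤ) * (t * (t + 1)) ≤ ∑ c ∈ Ico P (KK κ x J),
        (if J - 1 - s0 c < w then
        ((J - 1 - s0 c : ℕ) : ℤ) * ((J - 1 - s0 c : ℕ) + 1) else 0) := by
      refine le_trans ?_ (sum_fiberwise_le_sum_of_sum_fiber_nonneg (t := range w)
        (g := fun c => J - 1 - s0 c) ?_)
      · refine sum_le_sum fun t ht => ?_
        have htw := mem_range.1 ht
        rcases Nat.eq_zero_or_pos t with ht0 | ht0
        · subst ht0
          simp only [Nat.cast_zero, zero_mul, mul_zero]
          refine sum_nonneg fun c _ => ?_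
          split_ifs
          · positivity
          · exact le_rfl
        · have h2 : ∀ c ∈ (Ico P (KK κ x J)).filter (fun c => J - 1 - s0 c = t),
              (if J - 1 - s0 c < w then
              ((J - 1 - s0 c : ℕ) : ℤ) * ((J - 1 - s0 c : ℕ) + 1) else 0) = t * (t + 1) := by
            intro c hc
            rw [(mem_filter.1 hc).2, if_pos htw]
          rw [sum_congr rfl h2, sum_const, nsmul_eq_mul]
          refine mul_le_mul_of_nonneg_right ?_ (by positivity)
          have h3 : Ico (aa κ x (J - 2 - t)) (aa κ x (J - 1 - t)) ⊆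
              (Ico P (KK κ x J)).filter (fun c => J - 1 - s0 c = t) := by
            intro c hc
            obtain ⟨hc1, hc2⟩ := mem_Ico.1 hc
            have hcK : c < KK κ x J := by
              rw [hKK]
              exact lt_of_lt_of_le hc2 (amono hR (by omega) (by omega))
            have hcP : P ≤ c := by
              refine hP.trans (le_trans ?_ hc1)
              refine (kmono hR (show J - M - 1 ≤ J - 2 - t by omega) (by omega)).trans ?_
              unfold aa
              omega
            rw [mem_filter, mem_Ico]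
            refine ⟨⟨hcP, hcK⟩, ?_⟩
            have h4 := hs1 c hcK
            have h5 := hs2 c hcK
            have h6 := hs3 c hcK
            rcases lt_trichotomy (s0 c) (J - 1 - t) with h7 | h7 | h7
            · have := amono hR (show s0 c ≤ J - 2 - t by omega) (by omega)
              omega
            · omega
            · have := h6 _ h7
              omega
          have h4 := card_le_card h3
          rw [Nat.card_Ico] at h4
          have h5 := hstep (J - 2 - t) (by omega) (by omega)
          rw [show J - 2 - t + 1 = J - 1 - t by omega] at h5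
          have h6 : C ≤ ((Ico P (KK κ x J)).filter (fun c => J - 1 - s0 c = t)).card := by omega
          exact_mod_cast h6
      · intro t _
        refine sum_nonneg fun c _ => ?_
        split_ifs
        · positivity
        · exact le_rfl
    have h2 : ∀ n : ℕ, 3 * ∑ t ∈ range n, (C : ℤ) * (t * (t + 1)) =
        C * ((n - 1) * n * (n + 1)) := by
      intro n
      induction n with
      | zero => simp
      | succ n ih =>
        rw [sum_range_succ, mul_add, ih]
        push_cast
        ring
    rw [← h2 w]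
    linarith
  -- the moving points
  have hnew : -(2 * ((w : ℤ) - 1) ^ 2) ≤ ∑ c ∈ Ico P (KK κ x J),
      ∑ y ∈ (range J).filter (fun y => κ y = c ∧ 0 < x y),
        Hop (fun t => if x y + J < t + y + 2 then (1 : ℤ) else 0) w := by
    have h1 : -(∑ c ∈ Ico P (KK κ x J), ∑ y ∈ (range J).filter (fun y => κ y = c ∧ 0 < x y),
        (if J + 1 ≤ y + w then 2 * ((w : ℤ) - 1) else 0)) ≤ ∑ c ∈ Ico P (KK κ x J),
        ∑ y ∈ (range J).filter (fun y => κ y = c ∧ 0 < x y),
        Hop (fun t => if x y + J < t + y + 2 then (1 : ℤ) else 0) w := by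
      rw [← sum_neg_distrib]
      refine sum_le_sum fun c _ => ?_
      rw [← sum_neg_distrib]
      refine sum_le_sum fun y hy => ?_
      rw [mem_filter, mem_range] at hy
      exact hHstep y hy.1 hy.2.2
    refine le_trans ?_ h1
    rw [neg_le_neg_iff]
    have hb : ∀ y : ℕ, 0 ≤ (if J + 1 ≤ y + w then 2 * ((w : ℤ) - 1) else 0) := by
      intro y
      split_ifs <;> linarith
    have h2 : ∀ c, (range J).filter (fun y => κ y = c ∧ 0 < x y) =
        ((range J).filter (fun y => 0 < x y)).filter (fun y => κ y = c) := by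
      intro c
      rw [filter_filter]
      exact filter_congr fun y _ => and_comm
    simp only [h2]
    refine (sum_fiberwise_le_sum_of_sum_fiber_nonneg (t := Ico P (KK κ x J))
      (s := (range J).filter (fun y => 0 < x y)) (g := κ)
      (f := fun y => (if J + 1 ≤ y + w then 2 * ((w : ℤ) - 1) else 0))
      (fun c _ => sum_nonneg fun y _ => hb y)).trans ?_
    refine (sum_le_sum_of_subset_of_nonneg (filter_subset _ _) (fun y _ _ => hb y)).trans ?_
    rw [sum_ite, sum_const_zero, add_zero, sum_const, nsmul_eq_mul]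
    have h3 : ((range J).filter (fun y => J + 1 ≤ y + w)).card ≤ w - 1 := by
      have h4 : (range J).filter (fun y => J + 1 ≤ y + w) ⊆ Ico (J + 1 - w) J := by
        intro y hy
        rw [mem_filter, mem_range] at hy
        rw [mem_Ico]
        omega
      refine (card_le_card h4).trans ?_
      rw [Nat.card_Ico]
      omega
    have h5 : ((((range J).filter (fun y => J + 1 ≤ y + w)).card : ℕ) : ℤ) ≤ (w : ℤ) - 1 := by
      omega
    nlinarith
  have hone : ∑ c ∈ Ico P (KK κ x J), (if κ (J - 1) ≤ c then (w : ℤ) ^ 2 * (w - 1) else 0) ≤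
      (w : ℤ) ^ 2 * (w - 1) := by
    rw [sum_ite, sum_const_zero, add_zero, sum_const, nsmul_eq_mul]
    have h1 : ((Ico P (KK κ x J)).filter (fun c => κ (J - 1) ≤ c)).card ≤ 1 := by
      have h2 : KK κ x J ≤ κ (J - 1) + 1 := by
        unfold KK
        split_ifs <;> omega
      refine card_le_one.2 fun a ha b hb => ?_
      rw [mem_filter, mem_Ico] at ha hb
      omega
    have h2 : ((((Ico P (KK κ x J)).filter (fun c => κ (J - 1) ≤ c)).card : ℕ) : ℤ) ≤ 1 := by
      exact_mod_cast h1
    have h3 : 0 ≤ (w : ℤ) ^ 2 * (w - 1) := by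
      have : (0 : ℤ) ≤ w - 1 := by linarith
      positivity
    nlinarith
  have htot : Hop (FF κ x ν μ J) w = ∑ c ∈ Ico P (KK κ x J),
      Hop (fun t => (nn (ek κ x J) (ex x J) ν c (J + μ - 1 - t) : ℤ)) w := by
    rw [← Hop_sum]
    exact Hop_congr fun t ht => hFF t (by omega)
  have hsum := sum_le_sum hloss
  rw [← htot, sum_sub_distrib] at hsum
  simp only [hparts] at hsum
  rw [sum_add_distrib] at hsum
  have e1 : 6 * ((w : ℤ) - 1) ^ 2 ≤ (w - 1) * w * (w + 1) := by
    obtain ⟨v, rfl⟩ : ∃ v : ℕ, w = v + 2 := ⟨w - 2, by omega⟩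
    rcases v with _ | v
    · norm_num
    · push_cast
      have : (0 : ℤ) ≤ v := Int.natCast_nonneg v
      nlinarith [mul_nonneg this this, mul_nonneg this (mul_nonneg this this)]
  nlinarith

end Pool.Agent.Helper43.Gx.PkY1
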